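import Mathlib

/-! The excited random walk on the square lattice: steps, positions and visit counts. -/

namespace Pool.Agent.MP_db8016_pr

/-- The four unit steps `e₁, -e₁, e₂, -e₂` of `ℤ²`. -/
def step : Fin 4 → ℤ × ℤ := ![(1, 0), (-1, 0), (0, 1), (0, -1)]

/-- Position at time `n` of the path from the origin that makes the steps `e 0, e 1, …`. -/
def pos (e : ℕ → Fin 4) (n : ℕ) : ℤ × ℤ := ∑ i ∈ Finset.range n, step (e i)

/-- Number of visits to the site `pos e n` before time `n`. The cookie used at time `n` is the
cookie number `visits e n + 1` of that site; stacks are indexed from `0`. -/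
def visits (e : ℕ → Fin 4) (n : ℕ) : ℕ :=
  ((Finset.range n).filter fun i => pos e i = pos e n).card

end Pool.Agent.MP_db8016_pr
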